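import Pool.Agent.Helper10.Qc.Stmts

set_option autoImplicit false

/-!
# Reduction of the horizontal coordinate of a point
-/

namespace Pool.Agent.Helper10.Qc

open Pool.Agent.Helper19.Qh Pool.Agent.Helper19.Qc

theorem domr_min (ζ : Q) : ∃ b ∈ HO, ∀ b' ∈ HO, ‖ζ + b‖ ≤ ‖ζ + b'‖ := by
  have hfin := HO_fin (2 * ‖ζ‖ + 1)
  have h0 : (0 : Q) ∈ {q : Q | q ∈ HO ∧ ‖q‖ ≤ 2 * ‖ζ‖ + 1} := by
    refine ⟨HO.zero_mem, ?_⟩
    rw [norm_zero]
    positivity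
  obtain ⟨b, hb, hmin⟩ := Set.exists_min_image _ (fun b : Q => ‖ζ + b‖) hfin ⟨0, h0⟩
  refine ⟨b, hb.1, fun b' hb' => ?_⟩
  by_cases hc : ‖b'‖ ≤ 2 * ‖ζ‖ + 1
  · exact hmin b' ⟨hb', hc⟩
  · have h1 : ‖ζ + b‖ ≤ ‖ζ‖ := by
      have h2 := hmin 0 h0
      simpa using h2
    have h3 : ‖b'‖ - ‖ζ‖ ≤ ‖ζ + b'‖ := by
      have h4 := norm_sub_norm_le b' (-ζ)
      rw [norm_neg, sub_neg_eq_add, add_comm b' ζ] at h4
      exact h4
    push Not at hc
    linarith [norm_nonneg ζ]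

theorem domr_unit (b c d : ℤ) (hb : b = 0 ∨ b = -1) (hc : c = 0 ∨ c = -1) (hd : d = 0 ∨ d = -1) :
    ‖hq 1 b c d‖ = 1 := by
  have h : ‖hq 1 b c d‖ ^ 2 = 1 := by
    rw [hq_norm]
    rcases hb with rfl | rfl <;> rcases hc with rfl | rfl <;> rcases hd with rfl | rfl <;> norm_num
  have h1 : (‖hq 1 b c d‖ - 1) * (‖hq 1 b c d‖ + 1) = 0 := by ring_nf; linarith
  rcases mul_eq_zero.mp h1 with h2 | h2
  · linarith
  · linarith [norm_nonneg (hq 1 b c d)]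

theorem st_DOMR (_hHZ : ST_HZ) (hUNI : ST_UNI) (hCONJ : ST_CONJ) : ST_DOMR := by
  intro ζ
  obtain ⟨b, hb, hmin⟩ := domr_min ζ
  obtain ⟨U, hUc, hU⟩ := hUNI
  have hUne : U.Nonempty := by
    rw [← Finset.card_pos, hUc]
    norm_num
  set x : Q := ζ + b with hx
  obtain ⟨w, hwU, hwmax⟩ := Finset.exists_max_image U
    (fun w : Q => x.re * w.re + x.imI * w.imI + x.imJ * w.imJ + x.imK * w.imK) hUne
  have hw := (hU w).1 hwU
  -- every unit has scalar product at most 1/2 with x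
  have hhalf : ∀ w' : Q, w' ∈ HO → ‖w'‖ = 1 →
      x.re * w'.re + x.imI * w'.imI + x.imJ * w'.imJ + x.imK * w'.imK ≤ 1 / 2 := by
    intro w' hw' hn
    have h1 : ‖x‖ ≤ ‖x - w'‖ := by
      have h2 := hmin (b - w') (HO.sub_mem hb hw')
      have h3 : ζ + (b - w') = x - w' := by rw [hx]; abel
      rwa [h3] at h2
    have h4 : ‖x‖ ^ 2 ≤ ‖x - w'‖ ^ 2 := by
      apply pow_le_pow_left₀ (norm_nonneg _) h1
    have h5 : ‖w'‖ ^ 2 = 1 := by rw [hn]; norm_num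
    rw [q_norm_sq] at h4 h5
    rw [q_norm_sq] at h4
    simp only [Quaternion.re_sub, Quaternion.imI_sub, Quaternion.imJ_sub, Quaternion.imK_sub] at h4
    nlinarith
  set y : Q := star w * x with hy
  have hyre : y.re = x.re * w.re + x.imI * w.imI + x.imJ * w.imJ + x.imK * w.imK := by
    rw [hy]
    simp only [Quaternion.re_mul, Quaternion.re_star, Quaternion.imI_star, Quaternion.imJ_star,
      Quaternion.imK_star]
    ring
  have hyle : y.re ≤ 1 / 2 := by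
    rw [hyre]
    exact hhalf w hw.1 hw.2
  have hyw : ∀ w' : Q, w' ∈ HO → ‖w'‖ = 1 →
      y.re * w'.re + y.imI * w'.imI + y.imJ * w'.imJ + y.imK * w'.imK ≤ y.re := by
    intro w' hw' hn
    have h1 : w * w' ∈ U := by
      rw [hU]
      refine ⟨HO.mul_mem hw.1 hw', ?_⟩
      rw [norm_mul, hw.2, hn, one_mul]
    have h2 := hwmax _ h1
    rw [hyre]
    refine le_trans (le_of_eq ?_) h2
    rw [hy]
    simp only [Quaternion.re_mul, Quaternion.imI_mul, Quaternion.imJ_mul, Quaternion.imK_mul,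
      Quaternion.re_star, Quaternion.imI_star, Quaternion.imJ_star, Quaternion.imK_star]
    ring
  have hsum : |y.imI| + |y.imJ| + |y.imK| ≤ y.re := by
    have key : ∀ b c d : ℤ, (b = 0 ∨ b = -1) → (c = 0 ∨ c = -1) → (d = 0 ∨ d = -1) →
        y.imI * (1 + 2 * b) + y.imJ * (1 + 2 * c) + y.imK * (1 + 2 * d) ≤ y.re := by
      intro b c d h1 h2 h3
      have h4 := hyw (hq 1 b c d) (hq_mem 1 b c d) (domr_unit b c d h1 h2 h3)
      rw [hq_re, hq_i, hq_j, hq_k] at h4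
      push_cast at h4
      linarith
    have e1 := key 0 0 0 (Or.inl rfl) (Or.inl rfl) (Or.inl rfl)
    have e2 := key 0 0 (-1) (Or.inl rfl) (Or.inl rfl) (Or.inr rfl)
    have e3 := key 0 (-1) 0 (Or.inl rfl) (Or.inr rfl) (Or.inl rfl)
    have e4 := key 0 (-1) (-1) (Or.inl rfl) (Or.inr rfl) (Or.inr rfl)
    have e5 := key (-1) 0 0 (Or.inr rfl) (Or.inl rfl) (Or.inl rfl)
    have e6 := key (-1) 0 (-1) (Or.inr rfl) (Or.inl rfl) (Or.inr rfl)
    have e7 := key (-1) (-1) 0 (Or.inr rfl) (Or.inr rfl) (Or.inl rfl)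
    have e8 := key (-1) (-1) (-1) (Or.inr rfl) (Or.inr rfl) (Or.inr rfl)
    push_cast at e1 e2 e3 e4 e5 e6 e7 e8
    rcases abs_cases y.imI with ⟨h1, _⟩ | ⟨h1, _⟩ <;> rcases abs_cases y.imJ with ⟨h2, _⟩ | ⟨h2, _⟩ <;>
      rcases abs_cases y.imK with ⟨h3, _⟩ | ⟨h3, _⟩ <;> rw [h1, h2, h3] <;> linarith
  obtain ⟨t, ht, htn, hre, habs, hk1, hk2⟩ := hCONJ y
  have hz : star (w * t) * (ζ + b) * t = star t * y * t := by
    rw [hy, ← hx, star_mul]
    simp only [mul_assoc]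
  refine ⟨b, hb, w * t, HO.mul_mem hw.1 ht, t, ht, ?_, htn, ?_⟩
  · rw [norm_mul, hw.2, htn, one_mul]
  · rw [hz]
    refine ⟨?_, ?_, hk1, hk2⟩
    · rw [hre]; exact hyle
    · rw [hre, habs]; exact hsum

end Pool.Agent.Helper10.Qc
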